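import Mathlib
import Pool.Agent.U591.AM.Stm

/-!
# Project AM, package P1: merging two pointed configurations with bottom cuts
-/

namespace Pool.Agent.U830.AM.P1
open Pool.Agent.U591.AM

/-! ### squeezing `ℚ` into an interval -/

/-- strictly increasing `ℚ → (-1, 1)` -/
def g (t : ℚ) : ℚ := t / (1 + |t|)

lemma g_mono : StrictMono g := by
  intro s t h
  unfold g
  rw [div_lt_div_iff₀ (by positivity) (by positivity)]
  rcases abs_cases s with ⟨hs, hs'⟩ | ⟨hs, hs'⟩ <;>
    rcases abs_cases t with ⟨ht, ht'⟩ | ⟨ht, ht'⟩ <;> rw [hs, ht] <;> nlinarith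

lemma g_lt (t : ℚ) : g t < 1 := by
  unfold g
  rw [div_lt_one (by positivity)]
  have := le_abs_self t
  linarith

lemma g_gt (t : ℚ) : -1 < g t := by
  unfold g
  rw [lt_div_iff₀ (by positivity)]
  have := neg_abs_le t
  linarith

/-- strictly increasing `ℚ → (lo, hi)` -/
def sq (lo hi t : ℚ) : ℚ := lo + (hi - lo) * (1 + g t) / 2

lemma sq_lt {lo hi : ℚ} (h : lo < hi) {s t : ℚ} : sq lo hi s < sq lo hi t ↔ s < t := by
  have h1 : sq lo hi s < sq lo hi t ↔ g s < g t := by
    unfold sq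
    constructor
    · intro h2
      by_contra h3
      push Not at h3
      have : (hi - lo) * g t ≤ (hi - lo) * g s :=
        mul_le_mul_of_nonneg_left h3 (by linarith)
      nlinarith
    · intro h2
      have : (hi - lo) * g s < (hi - lo) * g t := mul_lt_mul_of_pos_left h2 (by linarith)
      nlinarith
  rw [h1]
  exact g_mono.lt_iff_lt

lemma sq_gt {lo hi : ℚ} (h : lo < hi) (t : ℚ) : lo < sq lo hi t := by
  unfold sq
  have := g_gt t
  have : 0 < (hi - lo) * (1 + g t) := mul_pos (by linarith) (by linarith)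
  linarith

lemma sq_hi {lo hi : ℚ} (h : lo < hi) (t : ℚ) : sq lo hi t < hi := by
  unfold sq
  have := g_lt t
  have : 0 < (hi - lo) * (1 - g t) := mul_pos (by linarith) (by linarith)
  nlinarith

variable {J : Type} [DecidableEq J]

lemma pres_of_mono {side : J → Bool} {T : Finset J} {x X : J → ℚ}
    (hi : ∀ u ∈ T, ∀ v ∈ T, side u = side v → x u = x v → u = v)
    (hm : ∀ u ∈ T, ∀ v ∈ T, side u = side v → x u < x v → X u < X v) : Pres side T x X := by
  intro u hu v hv hs
  refine ⟨hm u hu v hv hs, fun h => ?_⟩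
  by_contra h1
  push Not at h1
  rcases h1.lt_or_eq with h2 | h2
  · exact absurd (hm v hv u hu hs.symm h2) (not_lt.2 h.le)
  · rw [hi v hv u hu hs.symm h2] at h
    exact absurd h (lt_irrefl _)

/-! ### gluing a block -/

/-- coordinates: the block `B` gets the new coordinates `X1` in `(0, 1)`, the rest the old order -/
noncomputable def glue (B : Finset J) (mb : J) (x X1 : J → ℚ) (u : J) : ℚ :=
  if u ∈ B then sq 0 1 (X1 u) else if x u < x mb then sq (-1) 0 (x u) else sq 1 2 (x u)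

structure GH (side : J → Bool) (b : Bool) (B D : Finset J) (mb : J) (x X1 : J → ℚ) : Prop where
  mD : mb ∈ D
  mB : mb ∈ B
  ms : side mb = b
  out : ∀ v ∈ D, v ∉ B → side v = b
  inj : ∀ u ∈ D, ∀ v ∈ D, side u = side v → x u = x v → u = v
  blk : ∀ u ∈ D, u ∈ B → side u = b → ∀ v ∈ D, v ∉ B → (x u < x v ↔ x mb < x v)
  pres : ∀ u ∈ D, ∀ v ∈ D, u ∈ B → v ∈ B → side u = side v → (x u < x v ↔ X1 u < X1 v)

section
variable {side : J → Bool} {b : Bool} {B D : Finset J} {mb : J} {x X1 : J → ℚ}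

lemma glue_in {u : J} (hu : u ∈ B) : 0 < glue B mb x X1 u ∧ glue B mb x X1 u < 1 := by
  unfold glue
  rw [if_pos hu]
  exact ⟨sq_gt (by norm_num) _, sq_hi (by norm_num) _⟩

lemma glue_lt {u v : J} (hu : u ∈ B) (hv : v ∈ B) :
    glue B mb x X1 u < glue B mb x X1 v ↔ X1 u < X1 v := by
  unfold glue
  rw [if_pos hu, if_pos hv]
  exact sq_lt (by norm_num)

lemma glue_eq {u v : J} (hu : u ∈ B) (hv : v ∈ B)
    (h : glue B mb x X1 u = glue B mb x X1 v) : X1 u = X1 v := by
  have h1 := (glue_lt (mb := mb) (x := x) (X1 := X1) hu hv).not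
  have h2 := (glue_lt (mb := mb) (x := x) (X1 := X1) hv hu).not
  rw [h] at h1 h2
  have h3 := h1.1 (lt_irrefl _)
  have h4 := h2.1 (lt_irrefl _)
  exact le_antisymm (not_lt.1 h4) (not_lt.1 h3)

lemma GH.o (h : GH side b B D mb x X1) {v : J} (hv : v ∈ D) (hB : v ∉ B) :
    (glue B mb x X1 v < 0 ∧ x v < x mb) ∨ (1 < glue B mb x X1 v ∧ x mb < x v) := by
  by_cases h1 : x v < x mb
  · left
    refine ⟨?_, h1⟩
    unfold glue
    rw [if_neg hB, if_pos h1]
    exact sq_hi (by norm_num) _
  · right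
    refine ⟨?_, ?_⟩
    · unfold glue
      rw [if_neg hB, if_neg h1]
      exact sq_gt (by norm_num) _
    · rcases (not_lt.1 h1).lt_or_eq with h2 | h2
      · exact h2
      · exfalso
        apply hB
        rw [← h.inj mb h.mD v hv (by rw [h.ms, h.out v hv hB]) h2]
        exact h.mB

lemma GH.blk' (h : GH side b B D mb x X1) {u v : J} (hu : u ∈ D) (huB : u ∈ B)
    (hs : side u = b) (hv : v ∈ D) (hB : v ∉ B) (hx : x v < x u) : x v < x mb := by
  rcases h.o hv hB with h1 | h1
  · exact h1.2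
  · have := (h.blk u hu huB hs v hv hB).2 h1.2
    linarith

lemma GH.pr (h : GH side b B D mb x X1) : Pres side D x (glue B mb x X1) := by
  apply pres_of_mono h.inj
  intro u hu v hv hs hx
  by_cases hu1 : u ∈ B <;> by_cases hv1 : v ∈ B
  · rw [glue_lt hu1 hv1]
    exact (h.pres u hu v hv hu1 hv1 hs).1 hx
  · have h1 := h.out v hv hv1
    have h2 := (h.blk u hu hu1 (by rw [hs, h1]) v hv hv1).1 hx
    have h3 := glue_in (mb := mb) (x := x) (X1 := X1) hu1
    rcases h.o hv hv1 with h4 | h4 <;> linarith [h4.1, h4.2, h3.1, h3.2]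
  · have h1 := h.out u hu hu1
    have h2 := h.blk' hv hv1 (by rw [← hs, h1]) hu hu1 hx
    have h3 := glue_in (mb := mb) (x := x) (X1 := X1) hv1
    rcases h.o hu hu1 with h4 | h4 <;> linarith [h4.1, h4.2, h3.1, h3.2]
  · by_cases h1 : x u < x mb <;> by_cases h2 : x v < x mb
    · unfold glue
      rw [if_neg hu1, if_neg hv1, if_pos h1, if_pos h2]
      exact (sq_lt (by norm_num)).2 hx
    · rcases h.o hu hu1 with h4 | h4 <;> rcases h.o hv hv1 with h5 | h5 <;>
        linarith [h4.1, h4.2, h5.1, h5.2]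
    · linarith
    · unfold glue
      rw [if_neg hu1, if_neg hv1, if_neg h1, if_neg h2]
      exact (sq_lt (by norm_num)).2 hx

/-- all points of the block are replaced by the mark -/
def rho (B : Finset J) (mb : J) (u : J) : J := if u ∈ B then mb else u

lemma GH.cmp (h : GH side b B D mb x X1) {u v : J} (hu : u ∈ D) (hv : v ∈ D)
    (hn : ¬ (u ∈ B ∧ v ∈ B)) (hx : glue B mb x X1 u < glue B mb x X1 v) :
    x (rho B mb u) < x (rho B mb v) := by
  unfold rho
  by_cases hu1 : u ∈ B <;> by_cases hv1 : v ∈ B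
  · exact absurd ⟨hu1, hv1⟩ hn
  · rw [if_pos hu1, if_neg hv1]
    have h3 := glue_in (mb := mb) (x := x) (X1 := X1) hu1
    rcases h.o hv hv1 with h4 | h4 <;> linarith [h4.1, h4.2, h3.1, h3.2]
  · rw [if_neg hu1, if_pos hv1]
    have h3 := glue_in (mb := mb) (x := x) (X1 := X1) hv1
    rcases h.o hu hu1 with h4 | h4 <;> linarith [h4.1, h4.2, h3.1, h3.2]
  · rw [if_neg hu1, if_neg hv1]
    exact (h.pr u hu v hv (by rw [h.out u hu hu1, h.out v hv hv1])).2 hx

lemma GH.bet (h : GH side b B D mb x X1) {u o v : J} (ho : o ∈ D)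
    (hu : u ∈ B) (hv : v ∈ B) (h1 : glue B mb x X1 u < glue B mb x X1 o)
    (h2 : glue B mb x X1 o < glue B mb x X1 v) : o ∈ B := by
  by_contra hB
  have h3 := glue_in (mb := mb) (x := x) (X1 := X1) hu
  have h4 := glue_in (mb := mb) (x := x) (X1 := X1) hv
  rcases h.o ho hB with h5 | h5 <;> linarith [h5.1, h3.1, h3.2, h4.1, h4.2]

end

/-! ### hypotheses and conclusions -/

structure Hyp (side : J → Bool) (m : Bool → J) (x y : J → ℚ) (S Z : Finset J) : Prop where
  disj : Disjoint S Z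
  mS : ∀ b, m b ∈ S
  ms : ∀ b, side (m b) = b
  xi : ∀ u ∈ S ∪ Z, ∀ v ∈ S ∪ Z, side u = side v → x u = x v → u = v
  yi : ∀ u ∈ S, ∀ v ∈ S, side u = side v → y u = y v → u = v
  av : Av (fun u v => side u = side v) S x y
  cut : Cut (fun u v => side u = side v) S Z x y

structure Con (side : J → Bool) (m : Bool → J) (x y : J → ℚ) (S Z : Finset J)
    (X Y : J → ℚ) : Prop where
  px : Pres side (S ∪ Z) x X
  py : Pres side S y Y
  mx : X (m false) = X (m true)
  my : Y (m false) = Y (m true)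
  cx : ∀ u ∈ S ∪ Z, ∀ v ∈ S ∪ Z, side u ≠ side v → X u = X v → u = m (side u) ∧ v = m (side v)
  cy : ∀ u ∈ S, ∀ v ∈ S, side u ≠ side v → Y u = Y v → u = m (side u) ∧ v = m (side v)
  av : Av (fun _ _ => True) S X Y
  cut : Cut (fun _ _ => True) S Z X Y

variable {side : J → Bool} {m : Bool → J} {x y : J → ℚ} {S Z : Finset J}

lemma Hyp.mono (h : Hyp side m x y S Z) {S1 Z1 : Finset J} (hS : S1 ⊆ S) (hZ : Z1 ⊆ Z)
    (hm : ∀ b, m b ∈ S1) : Hyp side m x y S1 Z1 := by
  have hU : S1 ∪ Z1 ⊆ S ∪ Z := Finset.union_subset_union hS hZ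
  exact ⟨Finset.disjoint_of_subset_left hS (Finset.disjoint_of_subset_right hZ h.disj), hm, h.ms,
    fun u hu v hv => h.xi u (hU hu) v (hU hv), fun u hu v hv => h.yi u (hS hu) v (hS hv),
    fun i hi j hj p hp q hq => h.av i (hS hi) j (hS hj) p (hS hp) q (hS hq),
    fun z hz i hi p hp q hq => h.cut z (hZ hz) i (hS hi) p (hS hp) q (hS hq)⟩

/-- inflation: a pattern with two points in a block lies in the block -/
lemma two_all {X Y : J → ℚ} {T : Finset J} {P : J → Prop}
    (bx : ∀ u o v, o ∈ T → P u → P v → X u < X o → X o < X v → P o)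
    (by' : ∀ u o v, o ∈ T → P u → P v → Y u < Y o → Y o < Y v → P o)
    {i j p q : J} (hi : i ∈ T) (hj : j ∈ T) (hp : p ∈ T) (hq : q ∈ T) (h : pat X Y i j p q) :
    (P i ∧ P j ∧ P p ∧ P q) ∨ (¬ (P i ∧ P j) ∧ ¬ (P i ∧ P p) ∧ ¬ (P i ∧ P q) ∧ ¬ (P j ∧ P p) ∧
      ¬ (P j ∧ P q) ∧ ¬ (P p ∧ P q)) := by
  obtain ⟨h1, h2, h3, h4, h5, h6⟩ := h
  have f1 : P i → P p → P j := fun a c => bx i j p hj a c h1 h2
  have f2 : P i → P q → P j := fun a c => bx i j q hj a c h1 (h2.trans h3)
  have f3 : P j → P q → P p := fun a c => bx j p q hp a c h2 h3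
  have f4 : P j → P i → P q := fun a c => by' j q i hq a c h4 h5
  have f5 : P j → P p → P q := fun a c => by' j q p hq a c h4 (h5.trans h6)
  have f6 : P q → P p → P i := fun a c => by' q i p hi a c h5 h6
  clear bx by' h1 h2 h3 h4 h5 h6 hi hj hp hq
  by_cases a : P i <;> by_cases b : P j <;> by_cases c : P p <;> by_cases d : P q <;>
    simp_all

/-- gluing lemma for configurations -/
lemma inflate (h : Hyp side m x y S Z) (b : Bool) {S1 Z1 : Finset J} (hS : S1 ⊆ S) (hZ : Z1 ⊆ Z)
    (hmb : m b ∈ S1)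
    (oS : ∀ v ∈ S, v ∉ S1 → side v = b) (oZ : ∀ v ∈ Z, v ∉ Z1 → side v = b)
    (hcol : ∀ u ∈ S1 ∪ Z1, side u = b → ∀ v ∈ S ∪ Z, v ∉ S1 ∪ Z1 → (x u < x v ↔ x (m b) < x v))
    (hrow : ∀ u ∈ S1, side u = b → ∀ v ∈ S, v ∉ S1 → (y u < y v ↔ y (m b) < y v))
    (star : ∀ w ∈ Z1, ∀ o ∈ S, o ∉ S1 → x (m b) < x o → y (m b) < y o)
    (star2 : ∀ w ∈ Z1, ∀ i ∈ S, ∀ p ∈ S, ∀ q ∈ S, i ∉ S1 → p ∉ S1 → q ∉ S1 → x i < x (m b) →
      x (m b) < x p → x p < x q → y (m b) < y q → y q < y i → y i < y p → False)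
    {X1 Y1 : J → ℚ} (C : Con side m x y S1 Z1 X1 Y1) :
    ∃ X Y, Con side m x y S Z X Y := by
  classical
  have hU : S1 ∪ Z1 ⊆ S ∪ Z := Finset.union_subset_union hS hZ
  have hSU : S ⊆ S ∪ Z := Finset.subset_union_left
  have hZU : Z ⊆ S ∪ Z := Finset.subset_union_right
  have hd : ∀ u ∈ S, u ∉ Z := fun u hu => Finset.disjoint_left.1 h.disj hu
  have hd' : ∀ u ∈ Z, u ∉ S := fun u hu => Finset.disjoint_right.1 h.disj hu
  have hSB : ∀ u ∈ S, (u ∈ S1 ∪ Z1 ↔ u ∈ S1) := by
    intro u hu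
    rw [Finset.mem_union]
    exact ⟨fun h1 => h1.elim id (fun h2 => absurd (hZ h2) (hd u hu)), Or.inl⟩
  have hZB : ∀ u ∈ Z, (u ∈ S1 ∪ Z1 ↔ u ∈ Z1) := by
    intro u hu
    rw [Finset.mem_union]
    exact ⟨fun h1 => h1.elim (fun h2 => absurd (hS h2) (hd' u hu)) id, Or.inr⟩
  have out : ∀ v ∈ S ∪ Z, v ∉ S1 ∪ Z1 → side v = b := by
    intro v hv hv1
    rcases Finset.mem_union.1 hv with h1 | h1
    · exact oS v h1 (fun h2 => hv1 (Finset.mem_union_left _ h2))
    · exact oZ v h1 (fun h2 => hv1 (Finset.mem_union_right _ h2))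
  set B := S1 ∪ Z1 with hBdef
  have hmB : m b ∈ B := Finset.mem_union_left _ hmb
  have GX : GH side b B (S ∪ Z) (m b) x X1 :=
    { mD := hSU (h.mS b)
      mB := hmB
      ms := h.ms b
      out := out
      inj := h.xi
      blk := fun u _ hu1 hs v hv hv1 => hcol u hu1 hs v hv hv1
      pres := fun u _ v _ hu1 hv1 hs => C.px u hu1 v hv1 hs }
  have GY : GH side b B S (m b) y Y1 :=
    { mD := h.mS b
      mB := hmB
      ms := h.ms b
      out := fun v hv => out v (hSU hv)
      inj := h.yi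
      blk := fun u hu hu1 hs v hv hv1 =>
        hrow u ((hSB u hu).1 hu1) hs v hv (fun h2 => hv1 ((hSB v hv).2 h2))
      pres := fun u hu v hv hu1 hv1 hs =>
        C.py u ((hSB u hu).1 hu1) v ((hSB v hv).1 hv1) hs }
  set X := glue B (m b) x X1 with hX
  set Y := glue B (m b) y Y1 with hY
  have hmm : ∀ b', m b' ∈ S1 := by
    intro b'
    by_contra h1
    have h2 := oS _ (h.mS b') h1
    rw [h.ms] at h2
    rw [h2] at h1
    exact h1 hmb
  have hmm' : ∀ b', m b' ∈ B := fun b' => Finset.mem_union_left _ (hmm b')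
  have rS : ∀ u ∈ S, rho B (m b) u ∈ S := by
    intro u hu
    unfold rho
    split_ifs
    · exact h.mS b
    · exact hu
  have rs : ∀ u ∈ S, side (rho B (m b) u) = b := by
    intro u hu
    unfold rho
    split_ifs with h1
    · exact h.ms b
    · exact out u (hSU hu) h1
  refine ⟨X, Y, ?_⟩
  refine
    { px := GX.pr
      py := GY.pr
      mx := ?_
      my := ?_
      cx := ?_
      cy := ?_
      av := ?_
      cut := ?_ }
  · rw [hX]; unfold glue; rw [if_pos (hmm' _), if_pos (hmm' _), C.mx]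
  · rw [hY]; unfold glue; rw [if_pos (hmm' _), if_pos (hmm' _), C.my]
  · intro u hu v hv hs he
    by_cases hu1 : u ∈ B <;> by_cases hv1 : v ∈ B
    · exact C.cx u hu1 v hv1 hs (glue_eq hu1 hv1 he)
    · have h3 := glue_in (mb := m b) (x := x) (X1 := X1) hu1
      rcases GX.o hv hv1 with h4 | h4 <;> exfalso <;> rw [← hX] at * <;>
        linarith [h4.1, h3.1, h3.2]
    · have h3 := glue_in (mb := m b) (x := x) (X1 := X1) hv1
      rcases GX.o hu hu1 with h4 | h4 <;> exfalso <;> rw [← hX] at * <;>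
        linarith [h4.1, h3.1, h3.2]
    · exact absurd (by rw [out u hu hu1, out v hv hv1]) hs
  · intro u hu v hv hs he
    by_cases hu1 : u ∈ B <;> by_cases hv1 : v ∈ B
    · exact C.cy u ((hSB u hu).1 hu1) v ((hSB v hv).1 hv1) hs (glue_eq hu1 hv1 he)
    · have h3 := glue_in (mb := m b) (x := y) (X1 := Y1) hu1
      rcases GY.o hv hv1 with h4 | h4 <;> exfalso <;> rw [← hY] at * <;>
        linarith [h4.1, h3.1, h3.2]
    · have h3 := glue_in (mb := m b) (x := y) (X1 := Y1) hv1
      rcases GY.o hu hu1 with h4 | h4 <;> exfalso <;> rw [← hY] at * <;>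
        linarith [h4.1, h3.1, h3.2]
    · exact absurd (by rw [out u (hSU hu) hu1, out v (hSU hv) hv1]) hs
  · intro i hi j hj p hp q hq _ _ _ hpat
    have h2 := two_all (T := S) (P := fun u => u ∈ B) (X := X) (Y := Y)
      (fun u o v ho hu hv a c => GX.bet (hSU ho) hu hv a c)
      (fun u o v ho hu hv a c => GY.bet ho hu hv a c) hi hj hp hq hpat
    obtain ⟨g1, g2, g3, g4, g5, g6⟩ := hpat
    rcases h2 with ⟨hi1, hj1, hp1, hq1⟩ | ⟨n1, n2, n3, n4, n5, n6⟩
    · exact C.av i ((hSB i hi).1 hi1) j ((hSB j hj).1 hj1) p ((hSB p hp).1 hp1) q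
        ((hSB q hq).1 hq1) trivial trivial trivial
        ⟨(glue_lt hi1 hj1).1 g1, (glue_lt hj1 hp1).1 g2, (glue_lt hp1 hq1).1 g3,
          (glue_lt hj1 hq1).1 g4, (glue_lt hq1 hi1).1 g5, (glue_lt hi1 hp1).1 g6⟩
    · exact h.av _ (rS i hi) _ (rS j hj) _ (rS p hp) _ (rS q hq)
        (by show side _ = side _; rw [rs i hi, rs j hj])
        (by show side _ = side _; rw [rs i hi, rs p hp])
        (by show side _ = side _; rw [rs i hi, rs q hq])
        ⟨GX.cmp (hSU hi) (hSU hj) n1 g1, GX.cmp (hSU hj) (hSU hp) n4 g2,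
          GX.cmp (hSU hp) (hSU hq) n6 g3, GY.cmp hj hq n5 g4,
          GY.cmp hq hi (fun h => n3 ⟨h.2, h.1⟩) g5, GY.cmp hi hp n2 g6⟩
  · intro w hw i hi p hp q hq _ _ _ hc
    obtain ⟨g1, g2, g3, g4, g5⟩ := hc
    by_cases hw1 : w ∈ Z1
    · have hwB : w ∈ B := Finset.mem_union_right _ hw1
      have hw2 := glue_in (mb := m b) (x := x) (X1 := X1) hwB
      rw [← hX] at hw2
      by_cases hq1 : q ∈ B
      · have hp1 : p ∈ B := GX.bet (hSU hp) hwB hq1 g2 g3
        have hi1 : i ∈ B := GY.bet hi hq1 hp1 g4 g5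
        exact C.cut w hw1 i ((hSB i hi).1 hi1) p ((hSB p hp).1 hp1) q ((hSB q hq).1 hq1)
          trivial trivial trivial
          ⟨(glue_lt hi1 hwB).1 g1, (glue_lt hwB hp1).1 g2, (glue_lt hp1 hq1).1 g3,
            (glue_lt hq1 hi1).1 g4, (glue_lt hi1 hp1).1 g5⟩
      · have a1 : 1 < X q ∧ x (m b) < x q := by
          rcases GX.o (hSU hq) hq1 with h4 | h4
          · rw [← hX] at h4; linarith [h4.1, hw2.1]
          · exact h4
        have hq2 : q ∉ S1 := fun h2 => hq1 ((hSB q hq).2 h2)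
        have a2 := star w hw1 q hq hq2 a1.2
        have a3 : 1 < Y q := by
          rcases GY.o hq hq1 with h4 | h4
          · linarith [h4.2]
          · exact h4.1
        have hi1 : i ∉ B := by
          intro h2
          have h3 := glue_in (mb := m b) (x := y) (X1 := Y1) h2
          rw [← hY] at h3
          linarith [h3.2]
        have hp1 : p ∉ B := by
          intro h2
          have h3 := glue_in (mb := m b) (x := y) (X1 := Y1) h2
          rw [← hY] at h3
          linarith [h3.2]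
        have a4 : x i < x (m b) := by
          rcases GX.o (hSU hi) hi1 with h4 | h4
          · exact h4.2
          · rw [← hX] at h4; linarith [h4.1, hw2.2]
        have a5 : x (m b) < x p := by
          rcases GX.o (hSU hp) hp1 with h4 | h4
          · rw [← hX] at h4; linarith [h4.1, hw2.1]
          · exact h4.2
        have si := out i (hSU hi) hi1
        have sp := out p (hSU hp) hp1
        have sq' := out q (hSU hq) hq1
        exact star2 w hw1 i hi p hp q hq (fun h2 => hi1 ((hSB i hi).2 h2))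
          (fun h2 => hp1 ((hSB p hp).2 h2)) hq2 a4 a5
          ((GX.pr p (hSU hp) q (hSU hq) (by rw [sp, sq'])).2 g3) a2
          ((GY.pr q hq i hi (by rw [si, sq'])).2 g4) ((GY.pr i hi p hp (by rw [si, sp])).2 g5)
    · have hwB : w ∉ B := fun h2 => hw1 ((hZB w hw).1 h2)
      have hw2 := GX.o (hZU hw) hwB
      rw [← hX] at hw2
      have n1 : ¬ (i ∈ B ∧ p ∈ B) := fun h2 => hwB (GX.bet (hZU hw) h2.1 h2.2 g1 g2)
      have n2 : ¬ (i ∈ B ∧ q ∈ B) := fun h2 =>
        hwB (GX.bet (hZU hw) h2.1 h2.2 g1 (g2.trans g3))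
      have n3 : ¬ (p ∈ B ∧ q ∈ B) := fun h2 => n1 ⟨GY.bet hi h2.2 h2.1 g4 g5, h2.1⟩
      have rw' : rho B (m b) w = w := by unfold rho; rw [if_neg hwB]
      have c1 := GX.cmp (hSU hi) (hZU hw) (fun h2 => hwB h2.2) g1
      have c2 := GX.cmp (hZU hw) (hSU hp) (fun h2 => hwB h2.1) g2
      rw [rw'] at c1 c2
      have sw := out w (hZU hw) hwB
      exact h.cut w hw _ (rS i hi) _ (rS p hp) _ (rS q hq)
        (by show side _ = side _; rw [sw, rs i hi])
        (by show side _ = side _; rw [sw, rs p hp])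
        (by show side _ = side _; rw [sw, rs q hq])
        ⟨c1, c2, GX.cmp (hSU hp) (hSU hq) n3 g3, GY.cmp hq hi (fun h2 => n2 ⟨h2.2, h2.1⟩) g4,
          GY.cmp hi hp n1 g5⟩

/-- no cuts -/
lemma case0 (h : Hyp side m x y S ∅) : ∃ X Y, Con side m x y S ∅ X Y := by
  classical
  set S1 := S.filter (fun u => side u = false → u = m false) with hS1
  have m1 : ∀ u, u ∈ S1 ↔ u ∈ S ∧ (side u = false → u = m false) := by
    intro u; rw [hS1, Finset.mem_filter]
  have hne : m false ≠ m true := by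
    intro h1
    have h2 := h.ms false
    rw [h1, h.ms] at h2
    exact absurd h2 (by decide)
  have key : ∀ u ∈ S1, (u = m false ∨ (side u = true ∧ u ≠ m false ∧ u ∈ S)) := by
    intro u hu
    rw [m1] at hu
    by_cases h1 : u = m false
    · exact Or.inl h1
    · right
      refine ⟨?_, h1, hu.1⟩
      cases h2 : side u
      · exact absurd (hu.2 h2) h1
      · rfl
  let σ : J → J := fun u => if u = m false then m true else u
  have σs : ∀ u ∈ S1, σ u ∈ S ∧ side (σ u) = true := by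
    intro u hu
    simp only [σ]
    rcases key u hu with h1 | ⟨h1, h2, h3⟩
    · rw [if_pos h1]; exact ⟨h.mS true, h.ms true⟩
    · rw [if_neg h2]; exact ⟨h3, h1⟩
  refine inflate (X1 := fun u => x (σ u)) (Y1 := fun u => y (σ u)) h false
    (S1 := S1) (Z1 := ∅) (Finset.filter_subset _ _) (Finset.Subset.refl _) ?_ ?_ ?_ ?_ ?_ ?_ ?_ ?_
  · rw [m1]; exact ⟨h.mS _, fun _ => rfl⟩
  · intro v hv hv1
    by_contra h2
    apply hv1
    rw [m1]
    exact ⟨hv, fun h3 => absurd h3 h2⟩
  · intro v hv; exact absurd hv (Finset.notMem_empty _)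
  · intro u hu hs v hv hv1
    rw [Finset.union_empty] at hu
    rw [((m1 u).1 hu).2 hs]
  · intro u hu hs v hv hv1
    rw [((m1 u).1 hu).2 hs]
  · intro w hw; exact absurd hw (Finset.notMem_empty _)
  · intro w hw; exact absurd hw (Finset.notMem_empty _)
  · have σm : σ (m false) = m true := if_pos rfl
    have σm' : σ (m true) = m true := if_neg hne.symm
    have pr : ∀ x : J → ℚ, Pres side S1 x (fun u => x (σ u)) := by
      intro x u hu v hv hs
      simp only [σ]
      rcases key u hu with h1 | ⟨h1, h2, h3⟩ <;> rcases key v hv with h1' | ⟨h1', h2', h3'⟩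
      · rw [h1, h1']; simp
      · rw [h1, h.ms, h1'] at hs; exact absurd hs (by decide)
      · rw [h1', h.ms, h1] at hs; exact absurd hs (by decide)
      · rw [if_neg h2, if_neg h2']
    have co : ∀ x : J → ℚ, (∀ u ∈ S, ∀ v ∈ S, side u = side v → x u = x v → u = v) →
        ∀ u ∈ S1, ∀ v ∈ S1, side u ≠ side v → x (σ u) = x (σ v) →
          u = m (side u) ∧ v = m (side v) := by
      intro x hx u hu v hv hs he
      rcases key u hu with h1 | ⟨h1, h2, h3⟩ <;> rcases key v hv with h1' | ⟨h1', h2', h3'⟩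
      · rw [h1, h1'] at hs; exact absurd rfl hs
      · have e := hx _ (σs u hu).1 _ (σs v hv).1 (by rw [(σs u hu).2, (σs v hv).2]) he
        rw [h1, σm] at e
        simp only [σ] at e
        rw [if_neg h2'] at e
        refine ⟨?_, ?_⟩
        · rw [h1, h.ms]
        · rw [h1', e]
      · have e := hx _ (σs u hu).1 _ (σs v hv).1 (by rw [(σs u hu).2, (σs v hv).2]) he
        rw [h1', σm] at e
        simp only [σ] at e
        rw [if_neg h2] at e
        refine ⟨?_, ?_⟩
        · rw [h1, e]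
        · rw [h1', h.ms]
      · rw [h1, h1'] at hs; exact absurd rfl hs
    have hxi : ∀ u ∈ S, ∀ v ∈ S, side u = side v → x u = x v → u = v := fun u hu v hv =>
      h.xi u (Finset.mem_union_left _ hu) v (Finset.mem_union_left _ hv)
    refine
      { px := ?_
        py := pr y
        mx := by simp only [σm, σm']
        my := by simp only [σm, σm']
        cx := ?_
        cy := co y h.yi
        av := ?_
        cut := fun w hw => absurd hw (Finset.notMem_empty _) }
    · rw [Finset.union_empty]; exact pr x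
    · rw [Finset.union_empty]; exact co x hxi
    · intro i hi j hj p hp q hq _ _ _ hpat
      exact h.av _ (σs i hi).1 _ (σs j hj).1 _ (σs p hp).1 _ (σs q hq).1
        (by show side _ = side _; rw [(σs i hi).2, (σs j hj).2])
        (by show side _ = side _; rw [(σs i hi).2, (σs p hp).2])
        (by show side _ = side _; rw [(σs i hi).2, (σs q hq).2]) hpat

/-- a cut left of its mark -/
lemma case1 (h : Hyp side m x y S Z) {z : J} (hz : z ∈ Z) (hzm : x z < x (m (side z)))
    (IH : ∀ S1 Z1 : Finset J, S1.card + Z1.card < S.card + Z.card → Hyp side m x y S1 Z1 →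
      ∃ X Y, Con side m x y S1 Z1 X Y) : ∃ X Y, Con side m x y S Z X Y := by
  classical
  obtain ⟨b, hb⟩ : ∃ b, side z = b := ⟨_, rfl⟩
  rw [hb] at hzm
  have hd : ∀ u ∈ S, ∀ v ∈ Z, u ≠ v := fun u hu v hv e =>
    Finset.disjoint_left.1 h.disj hu (e ▸ hv)
  have hSU : ∀ u ∈ S, u ∈ S ∪ Z := fun u hu => Finset.mem_union_left _ hu
  have hZU : ∀ u ∈ Z, u ∈ S ∪ Z := fun u hu => Finset.mem_union_right _ hu
  have cutz : ∀ i ∈ S, ∀ p ∈ S, ∀ q ∈ S, side i = b → side p = b → side q = b →
      x i < x z → x z < x p → x p < x q → y q < y i → y i < y p → False := by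
    intro i hi p hp q hq si sp sq' h1 h2 h3 h4 h5
    exact h.cut z hz i hi p hp q hq (by show side _ = side _; rw [hb, si])
      (by show side _ = side _; rw [hb, sp]) (by show side _ = side _; rw [hb, sq'])
      ⟨h1, h2, h3, h4, h5⟩
  -- the block
  let inB : J → Prop := fun u => x z < x u ∧
    ∀ e ∈ S, side e = b → x e < x z → (y e < y u ↔ y e < y (m b))
  set S1 := S.filter (fun u => side u = b → inB u) with hS1
  set Z1 := Z.filter (fun w => side w = b → ∃ u ∈ S1, ∃ v ∈ S1, side u = b ∧ side v = b ∧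
    x u < x w ∧ x w < x v) with hZ1
  have m1 : ∀ u, u ∈ S1 ↔ u ∈ S ∧ (side u = b → inB u) := by
    intro u; rw [hS1, Finset.mem_filter]
  have m2 : ∀ w, w ∈ Z1 ↔ w ∈ Z ∧ (side w = b → ∃ u ∈ S1, ∃ v ∈ S1, side u = b ∧ side v = b ∧
    x u < x w ∧ x w < x v) := by
    intro u; rw [hZ1, Finset.mem_filter]
  have S1S : S1 ⊆ S := Finset.filter_subset _ _
  have Z1Z : Z1 ⊆ Z := Finset.filter_subset _ _
  have hm : ∀ b', m b' ∈ S1 := by
    intro b'
    rw [m1]
    refine ⟨h.mS _, fun h1 => ?_⟩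
    rw [h.ms] at h1
    subst h1
    exact ⟨hzm, fun _ _ _ _ => Iff.rfl⟩
  -- points of `S` of side `b` not in the block
  have nb : ∀ v ∈ S, v ∉ S1 → side v = b := by
    intro v hv h1
    by_contra h2
    exact h1 ((m1 v).2 ⟨hv, fun h3 => absurd h3 h2⟩)
  have nbE : ∀ v ∈ S, v ∉ S1 → x v < x z ∨ (x z < x v ∧ ∃ e ∈ S, side e = b ∧ x e < x z ∧
      ((y e < y v ∧ ¬ y e < y (m b)) ∨ (¬ y e < y v ∧ y e < y (m b)))) := by
    intro v hv h1
    rcases lt_trichotomy (x v) (x z) with h2 | h2 | h2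
    · exact Or.inl h2
    · exact absurd (h.xi v (hSU v hv) z (hZU z hz) (by rw [nb v hv h1, hb]) h2) (hd v hv z hz)
    · right
      refine ⟨h2, ?_⟩
      by_contra h3
      apply h1
      rw [m1]
      refine ⟨hv, fun _ => ⟨h2, fun e he se xe => ?_⟩⟩
      by_contra h4
      apply h3
      refine ⟨e, he, se, xe, ?_⟩
      by_cases h5 : y e < y v <;> by_cases h6 : y e < y (m b)
      · exact absurd (iff_of_true h5 h6) h4
      · exact Or.inl ⟨h5, h6⟩
      · exact Or.inr ⟨h5, h6⟩
      · exact absurd (iff_of_false h5 h6) h4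
  have A1 : ∀ u ∈ S1, ∀ u' ∈ S1, side u = b → side u' = b → ∀ v ∈ S ∪ Z, v ∉ S1 ∪ Z1 →
      x u < x v → x v < x u' → False := by
    intro u hu u' hu' su su' v hv hv1 h1 h2
    rcases Finset.mem_union.1 hv with hv2 | hv2
    · have hv3 : v ∉ S1 := fun h3 => hv1 (Finset.mem_union_left _ h3)
      have bu := ((m1 u).1 hu).2 su
      have bu' := ((m1 u').1 hu').2 su'
      have huS := S1S hu
      have huS' := S1S hu'
      have sv := nb v hv2 hv3
      rcases nbE v hv2 hv3 with h3 | ⟨h3, e, he, se, xe, h4⟩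
      · linarith [bu.1]
      · rcases h4 with ⟨h5, h6⟩ | ⟨h5, h6⟩
        · have h7 : ¬ y e < y u' := fun h8 => h6 ((bu'.2 e he se xe).1 h8)
          have h8 : y u' < y e := by
            rcases (not_lt.1 h7).lt_or_eq with h8 | h8
            · exact h8
            · have := h.yi u' huS' e he (by rw [su', se]) h8
              rw [this] at bu'
              linarith [bu'.1]
          exact cutz e he v hv2 u' huS' se sv su' xe h3 h2 h8 h5
        · have h7 : y e < y u := (bu.2 e he se xe).2 h6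
          have h8 : y v < y e := by
            rcases (not_lt.1 h5).lt_or_eq with h8 | h8
            · exact h8
            · have := h.yi v hv2 e he (by rw [sv, se]) h8
              rw [this] at h3
              linarith
          exact cutz e he u huS v hv2 se su sv xe bu.1 h1 h8 h7
    · apply hv1
      apply Finset.mem_union_right
      rw [m2]
      exact ⟨hv2, fun _ => ⟨u, hu, u', hu', su, su', h1, h2⟩⟩
  have nem : ∀ v ∈ S ∪ Z, v ∉ S1 ∪ Z1 → side v = b → x v ≠ x (m b) := by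
    intro v hv hv1 sv e
    have := h.xi v hv (m b) (hSU _ (h.mS b)) (by rw [sv, h.ms]) e
    rw [this] at hv1
    exact hv1 (Finset.mem_union_left _ (hm b))
  have nbU : ∀ v ∈ S ∪ Z, v ∉ S1 ∪ Z1 → side v = b := by
    intro v hv hv1
    rcases Finset.mem_union.1 hv with h1 | h1
    · exact nb v h1 (fun h2 => hv1 (Finset.mem_union_left _ h2))
    · by_contra h2
      exact hv1 (Finset.mem_union_right _ ((m2 v).2 ⟨h1, fun h3 => absurd h3 h2⟩))
  have C1 : ∀ u ∈ S1, side u = b → ∀ v ∈ S ∪ Z, v ∉ S1 ∪ Z1 → (x u < x v ↔ x (m b) < x v) := by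
    intro u hu su v hv hv1
    have sv := nbU v hv hv1
    have h1 := nem v hv hv1 sv
    have hne : x u ≠ x v := by
      intro e
      have := h.xi u (hSU _ (S1S hu)) v hv (by rw [su, sv]) e
      rw [← this] at hv1
      exact hv1 (Finset.mem_union_left _ hu)
    constructor
    · intro h2
      by_contra h3
      exact A1 u hu (m b) (hm b) su (h.ms b) v hv hv1 h2 (lt_of_le_of_ne (not_lt.1 h3) h1)
    · intro h2
      by_contra h3
      exact A1 (m b) (hm b) u hu (h.ms b) su v hv hv1 h2 (lt_of_le_of_ne (not_lt.1 h3) hne.symm)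
  have hsub : Hyp side m x y S1 Z1 := h.mono S1S Z1Z hm
  have hzZ1 : z ∉ Z1 := by
    intro h1
    obtain ⟨u, hu, v, hv, su, sv, h2, h3⟩ := ((m2 z).1 h1).2 hb
    linarith [(((m1 u).1 hu).2 su).1]
  have hcard : S1.card + Z1.card < S.card + Z.card := by
    have h1 := Finset.card_le_card S1S
    have h2 : Z1.card < Z.card :=
      Finset.card_lt_card ⟨Z1Z, fun h3 => hzZ1 (h3 hz)⟩
    omega
  obtain ⟨X1, Y1, C⟩ := IH S1 Z1 hcard hsub
  refine inflate h b S1S Z1Z (hm b) nb ?_ ?_ ?_ ?_ ?_ C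
  · intro v hv hv1
    by_contra h2
    exact hv1 ((m2 v).2 ⟨hv, fun h3 => absurd h3 h2⟩)
  · intro u hu su v hv hv1
    rcases Finset.mem_union.1 hu with h1 | h1
    · exact C1 u h1 su v hv hv1
    · obtain ⟨u1, hu1, u2, hu2, su1, su2, g1, g2⟩ := ((m2 u).1 h1).2 su
      constructor
      · intro h2
        exact (C1 u1 hu1 su1 v hv hv1).1 (g1.trans h2)
      · intro h2
        exact g2.trans ((C1 u2 hu2 su2 v hv hv1).2 h2)
  · -- rows
    have A2 : ∀ u ∈ S1, ∀ u' ∈ S1, side u = b → side u' = b → ∀ v ∈ S, v ∉ S1 →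
        y u < y v → y v < y u' → False := by
      intro u hu u' hu' su su' v hv hv1 h1 h2
      have bu := ((m1 u).1 hu).2 su
      have bu' := ((m1 u').1 hu').2 su'
      rcases nbE v hv hv1 with h3 | ⟨h3, e, he, se, xe, h4⟩
      · have h4 := (bu'.2 v hv (nb v hv hv1) h3).1 h2
        have h5 := (bu.2 v hv (nb v hv hv1) h3).2 h4
        linarith
      · rcases h4 with ⟨h5, h6⟩ | ⟨h5, h6⟩
        · exact h6 ((bu'.2 e he se xe).1 (h5.trans h2))
        · exact h5 (((bu.2 e he se xe).2 h6).trans h1)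
    intro u hu su v hv hv1
    have sv := nb v hv hv1
    have h1 : y v ≠ y (m b) := by
      intro e
      have := h.yi v hv (m b) (h.mS b) (by rw [sv, h.ms]) e
      rw [this] at hv1
      exact hv1 (hm b)
    have hne : y u ≠ y v := by
      intro e
      have := h.yi u (S1S hu) v hv (by rw [su, sv]) e
      rw [← this] at hv1
      exact hv1 hu
    constructor
    · intro h2
      by_contra h3
      exact A2 u hu (m b) (hm b) su (h.ms b) v hv hv1 h2 (lt_of_le_of_ne (not_lt.1 h3) h1)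
    · intro h2
      by_contra h3
      exact A2 (m b) (hm b) u hu (h.ms b) su v hv hv1 h2 (lt_of_le_of_ne (not_lt.1 h3) hne.symm)
  · -- star
    intro _ _ o ho ho1 h1
    rcases nbE o ho ho1 with h3 | ⟨h3, e, he, se, xe, h4⟩
    · linarith
    · rcases h4 with ⟨h5, h6⟩ | ⟨h5, h6⟩
      · linarith [not_lt.1 h6]
      · exfalso
        have h8 : y o < y e := by
          rcases (not_lt.1 h5).lt_or_eq with h8 | h8
          · exact h8
          · have := h.yi o ho e he (by rw [nb o ho ho1, se]) h8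
            rw [this] at h3
            linarith
        exact cutz e he (m b) (h.mS b) o ho se (h.ms b) (nb o ho ho1) xe hzm h1 h8 h6
  · intro _ _ i hi p hp q hq hi1 hp1 hq1 g1 g2 g3 g4 g5 g6
    rcases nbE i hi hi1 with h3 | ⟨h3, e, he, se, xe, h4⟩
    · exact cutz i hi p hp q hq (nb i hi hi1) (nb p hp hp1) (nb q hq hq1) h3 (hzm.trans g2) g3
        g5 g6
    · rcases h4 with ⟨h5, h6⟩ | ⟨h5, h6⟩
      · have h8 : y (m b) < y e := by
          rcases (not_lt.1 h6).lt_or_eq with h8 | h8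
          · exact h8
          · have := h.yi (m b) (h.mS b) e he (by rw [h.ms, se]) h8
            rw [this] at hzm
            linarith
        exact cutz e he i hi (m b) (h.mS b) se (nb i hi hi1) (h.ms b) xe h3 g1 h8 h5
      · linarith [not_lt.1 h5]

/-! ### all cuts right of their marks -/

omit [DecidableEq J] in
lemma rank_exists (A : Finset J) (H : J → ℚ) :
    ∃ rk : J → ℕ, ∀ u ∈ A, ∀ v ∈ A, (H u < H v ↔ rk u < rk v) := by
  refine ⟨fun u => (A.filter (fun w => H w < H u)).card, ?_⟩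
  have key : ∀ u ∈ A, ∀ v, H u < H v →
      (A.filter (fun w => H w < H u)).card < (A.filter (fun w => H w < H v)).card := by
    intro u hu v h
    apply Finset.card_lt_card
    refine ⟨fun w hw => ?_, fun hsub => ?_⟩
    · rw [Finset.mem_filter] at hw ⊢
      exact ⟨hw.1, hw.2.trans h⟩
    · have := hsub (Finset.mem_filter.2 ⟨hu, h⟩)
      exact absurd (Finset.mem_filter.1 this).2 (lt_irrefl _)
  intro u hu v hv
  refine ⟨key u hu v, fun h => ?_⟩
  by_contra h1
  rcases (not_lt.1 h1).lt_or_eq with h2 | h2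
  · exact absurd (key v hv u h2) (not_lt.2 h.le)
  · simp only [h2] at h
    exact absurd h (lt_irrefl _)

/-- the points left of all cuts of their side -/
noncomputable def Eset (side : J → Bool) (x : J → ℚ) (S Z : Finset J) : Finset J := by
  classical
  exact S.filter (fun u => ∀ z ∈ Z, side z = side u → x u < x z)

/-- the data produced by the induction hypothesis for the rotated configuration -/
structure KP (side : J → Bool) (m : Bool → J) (x y : J → ℚ) (S E : Finset J) (κ : J → ℕ)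
    (Y' : J → ℚ) : Prop where
  p1 : ∀ u ∈ E, ∀ v ∈ E, side u = side v → x u < x v → Y' v < Y' u
  p2 : Y' (m false) = Y' (m true)
  p2' : κ (m false) = κ (m true)
  p3 : ∀ u ∈ E, ∀ v ∈ E, side u ≠ side v → Y' u = Y' v → u = m (side u) ∧ v = m (side v)
  p4 : ∀ u ∈ E, ∀ v ∈ S, κ u = κ v → v ∈ E ∧ (side u = side v → u = v) ∧
    (side u ≠ side v → u = m (side u) ∧ v = m (side v))
  p5 : ∀ u ∈ S, u ∉ E → ∀ v ∈ S, κ u = κ v → v ∉ E ∧ side u = side v
  p6 : ∀ u ∈ S, ∀ v ∈ S, side u = side v → κ u < κ v → y u < y v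
  p7 : ∀ u ∈ S, u ∉ E → ∀ v ∈ S, v ∉ E → side u = side v → κ u < κ v → x u < x v
  p8 : ∀ i ∈ E, ∀ j ∈ E, ∀ p ∈ E, ∀ q ∈ E,
    ¬ (κ j < κ q ∧ κ q < κ i ∧ κ i < κ p ∧ Y' q < Y' p ∧ Y' p < Y' j ∧ Y' j < Y' i)
  p9 : ∀ i ∈ E, ∀ j ∈ E, ∀ p ∈ E, ∀ q ∈ S, q ∉ E →
    ¬ (κ j < κ q ∧ κ q < κ i ∧ κ i < κ p ∧ Y' p < Y' j ∧ Y' j < Y' i)

lemma mem_Eset {u : J} :
    u ∈ Eset side x S Z ↔ u ∈ S ∧ ∀ z ∈ Z, side z = side u → x u < x z := by
  unfold Eset
  rw [Finset.mem_filter]

lemma case2a (h : Hyp side m x y S Z) (hZ : Z.Nonempty) (hz : ∀ z ∈ Z, ¬ x z < x (m (side z)))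
    (IH : ∀ (x y : J → ℚ) (S1 Z1 : Finset J), S1.card + Z1.card < S.card + Z.card →
      Hyp side m x y S1 Z1 → ∃ X Y, Con side m x y S1 Z1 X Y) :
    ∃ κ Y', KP side m x y S (Eset side x S Z) κ Y' := by
  classical
  have mE : ∀ u, u ∈ Eset side x S Z ↔ u ∈ S ∧ ∀ z ∈ Z, side z = side u → x u < x z :=
    fun u => mem_Eset
  generalize Eset side x S Z = E at mE ⊢
  have hd : ∀ u ∈ S, ∀ v ∈ Z, u ≠ v := fun u hu v hv e =>
    Finset.disjoint_left.1 h.disj hu (e ▸ hv)
  have hSU : ∀ u ∈ S, u ∈ S ∪ Z := fun u hu => Finset.mem_union_left _ hu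
  have hZU : ∀ u ∈ Z, u ∈ S ∪ Z := fun u hu => Finset.mem_union_right _ hu
  have ES : E ⊆ S := fun u hu => ((mE u).1 hu).1
  have hmE : ∀ b, m b ∈ E := by
    intro b
    rw [mE]
    refine ⟨h.mS b, fun z hz1 hs => ?_⟩
    rw [h.ms] at hs
    have h1 := hz z hz1
    rw [hs] at h1
    rcases (not_lt.1 h1).lt_or_eq with h2 | h2
    · exact h2
    · exact absurd (h.xi _ (hSU _ (h.mS b)) z (hZU z hz1) (by rw [h.ms, hs]) h2)
        (hd _ (h.mS b) z hz1)
  have nE : ∀ u ∈ S, u ∉ E → ∃ z ∈ Z, side z = side u ∧ x z < x u := by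
    intro u hu hu1
    by_contra h1
    apply hu1
    rw [mE]
    refine ⟨hu, fun z hz1 hs => ?_⟩
    by_contra h2
    apply h1
    refine ⟨z, hz1, hs, ?_⟩
    rcases (not_lt.1 h2).lt_or_eq with h3 | h3
    · exact h3
    · exact absurd (h.xi u (hSU u hu) z (hZU z hz1) hs.symm h3.symm) (hd u hu z hz1)
  have EF : ∀ e ∈ E, ∀ p ∈ S, p ∉ E → side e = side p → x e < x p := by
    intro e he p hp hp1 hs
    obtain ⟨z, hz1, sz, xz⟩ := nE p hp hp1
    exact (((mE e).1 he).2 z hz1 (by rw [sz, hs])).trans xz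
  have cutE : ∀ e ∈ E, ∀ p ∈ S, ∀ q ∈ S, p ∉ E → side e = side p → side p = side q →
      x p < x q → y q < y e → y e < y p → False := by
    intro e he p hp q hq hp1 s1 s2 h1 h2 h3
    obtain ⟨z, hz1, sz, xz⟩ := nE p hp hp1
    exact h.cut z hz1 e (ES he) p hp q hq (by show side _ = side _; rw [sz, s1])
      (by show side _ = side _; rw [sz]) (by show side _ = side _; rw [sz, s2])
      ⟨((mE e).1 he).2 z hz1 (by rw [sz, s1]), xz, h1, h2, h3⟩
  -- blocks
  let blk : J → J → Prop := fun u v =>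
    side u = side v ∧ ∀ e ∈ E, side e = side u → (y e < y u ↔ y e < y v)
  have blk_refl : ∀ u, blk u u := fun u => ⟨rfl, fun _ _ _ => Iff.rfl⟩
  have blk_symm : ∀ u v, blk u v → blk v u := fun u v h1 =>
    ⟨h1.1.symm, fun e he se => (h1.2 e he (se.trans h1.1.symm)).symm⟩
  have blk_trans : ∀ u v w, blk u v → blk v w → blk u w := fun u v w h1 h2 =>
    ⟨h1.1.trans h2.1, fun e he se => (h1.2 e he se).trans (h2.2 e he (se.trans h1.1))⟩
  set F := S.filter (fun u => u ∉ E) with hF
  have mF : ∀ u, u ∈ F ↔ u ∈ S ∧ u ∉ E := fun u => by rw [hF, Finset.mem_filter]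
  have FS : F ⊆ S := Finset.filter_subset _ _
  let cls : J → Finset J := fun u => F.filter (fun v => blk u v)
  let f : Finset J → J := fun T => if hT : T.Nonempty then hT.choose else m true
  let rep : J → J := fun u => f (cls u)
  have rep_mem : ∀ u ∈ F, rep u ∈ F ∧ blk u (rep u) := by
    intro u hu
    have hne : (cls u).Nonempty := ⟨u, Finset.mem_filter.2 ⟨hu, blk_refl u⟩⟩
    have h1 : rep u = hne.choose := by
      show f (cls u) = _
      simp only [f]
      rw [dif_pos hne]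
    rw [h1]
    exact Finset.mem_filter.1 hne.choose_spec
  have rep_eq : ∀ u v, blk u v → rep u = rep v := by
    intro u v huv
    have : cls u = cls v := by
      apply Finset.filter_congr
      intro w _
      exact ⟨fun h1 => blk_trans _ _ _ (blk_symm _ _ huv) h1, fun h1 => blk_trans _ _ _ huv h1⟩
    show f (cls u) = f (cls v)
    rw [this]
  set R := F.image rep with hR
  have RF : R ⊆ F := by
    intro w hw
    obtain ⟨u, hu, rfl⟩ := Finset.mem_image.1 hw
    exact (rep_mem u hu).1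
  have US : E ∪ R ⊆ S := Finset.union_subset ES (RF.trans FS)
  have hcard : E.card + R.card < S.card + Z.card := by
    have h1 : R.card ≤ F.card := Finset.card_image_le
    have h2 : E.card + F.card ≤ S.card := by
      rw [← Finset.card_union_of_disjoint]
      · exact Finset.card_le_card (Finset.union_subset ES FS)
      · rw [Finset.disjoint_left]
        intro u hu hu1
        exact ((mF u).1 hu1).2 hu
    have h3 : 0 < Z.card := Finset.card_pos.2 hZ
    omega
  have H' : Hyp side m y (fun u => - x u) E R := by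
    refine ⟨?_, hmE, h.ms, ?_, ?_, ?_, ?_⟩
    · rw [Finset.disjoint_left]
      intro u hu hu1
      exact ((mF u).1 (RF hu1)).2 hu
    · intro u hu v hv
      exact h.yi u (US hu) v (US hv)
    · intro u hu v hv hs he
      exact h.xi u (hSU u (ES hu)) v (hSU v (ES hv)) hs (neg_inj.1 he)
    · intro i hi j hj p hp q hq s1 s2 s3 hpat
      obtain ⟨h1, h2, h3, h4, h5, h6⟩ := hpat
      have s1' : side i = side j := s1
      have s2' : side i = side p := s2
      have s3' : side i = side q := s3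
      exact h.av p (ES hp) i (ES hi) q (ES hq) j (ES hj) s2'.symm (by
        show side _ = side _; rw [← s2', s3']) (by show side _ = side _; rw [← s2', s1'])
        ⟨by linarith, by linarith, by linarith, h1, h2, h3⟩
    · intro w hw i hi p hp q hq s1 s2 s3 hpat
      obtain ⟨h1, h2, h3, h4, h5⟩ := hpat
      have s1' : side w = side i := s1
      have s2' : side w = side p := s2
      have s3' : side w = side q := s3
      have hw1 := (mF w).1 (RF hw)
      exact h.av p (ES hp) i (ES hi) q (ES hq) w hw1.1 (by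
        show side _ = side _; rw [← s2', s1']) (by show side _ = side _; rw [← s2', s3'])
        s2'.symm
        ⟨by linarith, by linarith, EF q hq w hw1.1 hw1.2 s3'.symm, h1, h2, h3⟩
  obtain ⟨X1, Y1, C⟩ := IH y (fun u => - x u) E R hcard H'
  obtain ⟨rk, hrk⟩ := rank_exists (E ∪ R) X1
  -- ranks
  have rkeq : ∀ u ∈ E ∪ R, ∀ v ∈ E ∪ R, rk u = rk v → X1 u = X1 v := by
    intro u hu v hv he
    have h1 := (hrk u hu v hv).not.2 (by omega)
    have h2 := (hrk v hv u hu).not.2 (by omega)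
    exact le_antisymm (not_lt.1 h2) (not_lt.1 h1)
  have rks : ∀ u ∈ E ∪ R, ∀ v ∈ E ∪ R, side u = side v → rk u = rk v → u = v := by
    intro u hu v hv hs he
    have h1 := (C.px u hu v hv hs).not.2 (by rw [rkeq u hu v hv he]; exact lt_irrefl _)
    have h2 := (C.px v hv u hu hs.symm).not.2 (by rw [rkeq u hu v hv he]; exact lt_irrefl _)
    exact h.yi u (US hu) v (US hv) hs (le_antisymm (not_lt.1 h2) (not_lt.1 h1))
  have rkd : ∀ u ∈ E ∪ R, ∀ v ∈ E ∪ R, side u ≠ side v → rk u = rk v →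
      u = m (side u) ∧ v = m (side v) := by
    intro u hu v hv hs he
    exact C.cx u hu v hv hs (rkeq u hu v hv he)
  have rky : ∀ u ∈ E ∪ R, ∀ v ∈ E ∪ R, side u = side v → rk u < rk v → y u < y v := by
    intro u hu v hv hs he
    exact (C.px u hu v hv hs).2 ((hrk u hu v hv).2 he)
  let r : J → J := fun u => if u ∈ E then u else rep u
  have rE : ∀ u ∈ E, r u = u := fun u hu => if_pos hu
  have rF : ∀ u, u ∉ E → r u = rep u := fun u hu => if_neg hu
  have EU : ∀ u ∈ E, u ∈ E ∪ R := fun u hu => Finset.mem_union_left _ hu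
  have inF : ∀ u ∈ S, u ∉ E → u ∈ F := fun u hu hu1 => (mF u).2 ⟨hu, hu1⟩
  have RU : ∀ u ∈ F, rep u ∈ E ∪ R := fun u hu =>
    Finset.mem_union_right _ (Finset.mem_image_of_mem _ hu)
  have rU : ∀ u ∈ S, r u ∈ E ∪ R := by
    intro u hu
    by_cases h1 : u ∈ E
    · rw [rE u h1]; exact EU u h1
    · rw [rF u h1]; exact RU u (inF u hu h1)
  have rs : ∀ u ∈ S, side (r u) = side u := by
    intro u hu
    by_cases h1 : u ∈ E
    · rw [rE u h1]
    · rw [rF u h1]; exact (rep_mem u (inF u hu h1)).2.1.symm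
  have repE : ∀ u ∈ F, rep u ∉ E := fun u hu => ((mF _).1 (rep_mem u hu).1).2
  have p5' : ∀ u ∈ S, u ∉ E → ∀ v ∈ S, rk (r u) = rk (r v) → v ∉ E ∧ side u = side v := by
    intro u hu hu1 v hv he
    have hss : side u = side v := by
      by_contra hs
      have := rkd _ (rU u hu) _ (rU v hv) (by rw [rs u hu, rs v hv]; exact hs) he
      rw [rF u hu1] at this
      apply repE u (inF u hu hu1)
      rw [this.1]
      exact hmE _
    refine ⟨fun hv1 => ?_, hss⟩
    have := rks _ (rU u hu) _ (rU v hv) (by rw [rs u hu, rs v hv]; exact hss) he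
    rw [rF u hu1, rE v hv1] at this
    apply repE u (inF u hu hu1)
    rw [this]
    exact hv1
  have p6' : ∀ u ∈ S, ∀ v ∈ S, side u = side v → rk (r u) < rk (r v) → y u < y v := by
    intro u hu v hv hs hlt
    have h1 := rky _ (rU u hu) _ (rU v hv) (by rw [rs u hu, rs v hv]; exact hs) hlt
    by_cases hu1 : u ∈ E <;> by_cases hv1 : v ∈ E
    · rwa [rE u hu1, rE v hv1] at h1
    · rw [rE u hu1, rF v hv1] at h1
      exact ((rep_mem v (inF v hv hv1)).2.2 u hu1 hs).2 h1
    · rw [rF u hu1, rE v hv1] at h1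
      have h2 := (rep_mem u (inF u hu hu1)).2.2 v hv1 hs.symm
      have h3 : ¬ y v < y u := fun h4 => absurd (h2.1 h4) (not_lt.2 h1.le)
      rcases (not_lt.1 h3).lt_or_eq with h4 | h4
      · exact h4
      · rw [h.yi u hu v hv hs h4] at hu1
        exact absurd hv1 hu1
    · rw [rF u hu1, rF v hv1] at h1
      by_contra h2
      have hb : blk u v := by
        refine ⟨hs, fun e he se => ?_⟩
        have b1 := (rep_mem u (inF u hu hu1)).2.2 e he se
        have b2 := (rep_mem v (inF v hv hv1)).2.2 e he (se.trans hs)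
        constructor
        · intro h3
          exact b2.2 ((b1.1 h3).trans h1)
        · intro h3
          exact h3.trans_le (not_lt.1 h2)
      rw [rep_eq u v hb] at h1
      exact lt_irrefl _ h1
  refine ⟨fun u => rk (r u), Y1, ?_⟩
  refine
    { p1 := ?_
      p2 := C.my
      p2' := ?_
      p3 := C.cy
      p4 := ?_
      p5 := p5'
      p6 := p6'
      p7 := ?_
      p8 := ?_
      p9 := ?_ }
  · intro u hu v hv hs hx
    exact (C.py v hv u hu hs.symm).1 (neg_lt_neg hx)
  · show rk (r (m false)) = rk (r (m true))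
    rw [rE _ (hmE _), rE _ (hmE _)]
    have h1 := (hrk _ (EU _ (hmE false)) _ (EU _ (hmE true))).not.1
      (by rw [C.mx]; exact lt_irrefl _)
    have h2 := (hrk _ (EU _ (hmE true)) _ (EU _ (hmE false))).not.1
      (by rw [C.mx]; exact lt_irrefl _)
    omega
  · intro u hu v hv he
    have hv1 : v ∈ E := by
      by_contra hv1
      exact (p5' v hv hv1 u (ES hu) he.symm).1 hu
    have he' : rk (r u) = rk (r v) := he
    rw [rE u hu, rE v hv1] at he'
    exact ⟨hv1, fun hs => rks u (EU u hu) v (EU v hv1) hs he',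
      fun hs => rkd u (EU u hu) v (EU v hv1) hs he'⟩
  · intro u hu hu1 v hv hv1 hs hlt
    have hy := p6' u hu v hv hs hlt
    have hlt' : rk (r u) < rk (r v) := hlt
    by_contra hx
    have hne : u ≠ v := by
      intro e
      rw [e] at hy
      exact lt_irrefl _ hy
    have hx' : x v < x u := by
      rcases (not_lt.1 hx).lt_or_eq with h4 | h4
      · exact h4
      · exact absurd (h.xi v (hSU v hv) u (hSU u hu) hs.symm h4).symm hne
    have hb : blk u v := by
      refine ⟨hs, fun e he se => ⟨fun h3 => h3.trans hy, fun h3 => ?_⟩⟩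
      by_contra h4
      rcases (not_lt.1 h4).lt_or_eq with h5 | h5
      · exact cutE e he v hv u hu hv1 (se.trans hs) hs.symm hx' h5 h3
      · rw [h.yi u hu e (ES he) se.symm h5] at hu1
        exact hu1 he
    rw [rF u hu1, rF v hv1, rep_eq u v hb] at hlt'
    exact lt_irrefl _ hlt'
  · intro i hi j hj p hp q hq hc
    obtain ⟨h1, h2, h3, h4, h5, h6⟩ := hc
    simp only [rE i hi, rE j hj, rE p hp, rE q hq] at h1 h2 h3
    exact C.av j hj q hq i hi p hp trivial trivial trivial
      ⟨(hrk j (EU j hj) q (EU q hq)).2 h1, (hrk q (EU q hq) i (EU i hi)).2 h2,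
        (hrk i (EU i hi) p (EU p hp)).2 h3, h4, h5, h6⟩
  · intro i hi j hj p hp q hq hq1 hc
    obtain ⟨h1, h2, h3, h4, h5⟩ := hc
    simp only [rE i hi, rE j hj, rE p hp, rF q hq1] at h1 h2 h3
    have hqF := inF q hq hq1
    exact C.cut (rep q) (Finset.mem_image_of_mem _ hqF) j hj i hi p hp trivial trivial trivial
      ⟨(hrk j (EU j hj) _ (RU q hqF)).2 h1, (hrk _ (RU q hqF) i (EU i hi)).2 h2,
        (hrk i (EU i hi) p (EU p hp)).2 h3, h4, h5⟩

/-- the fractional parts of the columns -/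
def sqs (b : Bool) (t : ℚ) : ℚ := if b then sq (1/2) 1 t else sq 0 (1/2) t

lemma sqs_lt {b : Bool} {s t : ℚ} : sqs b s < sqs b t ↔ s < t := by
  cases b
  · exact sq_lt (by norm_num)
  · exact sq_lt (by norm_num)

lemma sqs_pos (b : Bool) (t : ℚ) : 0 < sqs b t := by
  cases b
  · exact sq_gt (by norm_num) t
  · have := sq_gt (lo := 1/2) (hi := 1) (by norm_num) t
    show 0 < sq (1/2) 1 t
    linarith

lemma sqs_one (b : Bool) (t : ℚ) : sqs b t < 1 := by
  cases b
  · have := sq_hi (lo := 0) (hi := 1/2) (by norm_num) t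
    show sq 0 (1/2) t < 1
    linarith
  · exact sq_hi (by norm_num) t

/-- level of a column: the number of the block it is attached to -/
noncomputable def lev (side : J → Bool) (x : J → ℚ) (F : Finset J) (κ : J → ℕ) (b : Bool)
    (t : ℚ) : ℕ := by
  classical
  exact (F.filter (fun v => side v = b ∧ x v ≤ t)).sup (fun v => 1 + κ v)

lemma lev_mono {F : Finset J} {κ : J → ℕ} {b : Bool} {s t : ℚ} (hst : s ≤ t) :
    lev side x F κ b s ≤ lev side x F κ b t := by
  unfold lev
  apply Finset.sup_mono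
  intro v hv
  rw [Finset.mem_filter] at hv ⊢
  exact ⟨hv.1, hv.2.1, hv.2.2.trans hst⟩

lemma lev_pos {F : Finset J} {κ : J → ℕ} {b : Bool} {t : ℚ} (h0 : 0 < lev side x F κ b t) :
    ∃ v ∈ F, side v = b ∧ x v ≤ t ∧ lev side x F κ b t = 1 + κ v := by
  classical
  have hne : (F.filter (fun v => side v = b ∧ x v ≤ t)).Nonempty := by
    by_contra h1
    rw [Finset.not_nonempty_iff_eq_empty] at h1
    unfold lev at h0
    simp only [h1] at h0
    simp at h0
  obtain ⟨v, hv, he⟩ := Finset.exists_mem_eq_sup _ hne (fun v => 1 + κ v)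
  rw [Finset.mem_filter] at hv
  refine ⟨v, hv.1, hv.2.1, hv.2.2, ?_⟩
  rw [← he]
  unfold lev
  congr!

lemma lev_le {F : Finset J} {κ : J → ℕ} {b : Bool} {t : ℚ} {n : ℕ}
    (hn : ∀ v ∈ F, side v = b → x v ≤ t → 1 + κ v ≤ n) : lev side x F κ b t ≤ n := by
  unfold lev
  apply Finset.sup_le
  intro v hv
  rw [Finset.mem_filter] at hv
  exact hn v hv.1 hv.2.1 hv.2.2

lemma le_lev {F : Finset J} {κ : J → ℕ} {b : Bool} {t : ℚ} {v : J} (hv : v ∈ F)
    (hs : side v = b) (hx : x v ≤ t) : 1 + κ v ≤ lev side x F κ b t := by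
  unfold lev
  exact Finset.le_sup (f := fun v => 1 + κ v) (Finset.mem_filter.2 ⟨hv, hs, hx⟩)

lemma sq_inj {lo hi : ℚ} (h : lo < hi) {s t : ℚ} (he : sq lo hi s = sq lo hi t) : s = t := by
  have h1 := (sq_lt h (s := s) (t := t)).not.1 (by rw [he]; exact lt_irrefl _)
  have h2 := (sq_lt h (s := t) (t := s)).not.1 (by rw [he]; exact lt_irrefl _)
  exact le_antisymm (not_lt.1 h2) (not_lt.1 h1)

lemma frac_ne {a b : ℕ} {s t : ℚ} (h1 : 0 < s) (h2 : s < 1/2) (h3 : 1/2 < t) (h4 : t < 1)
    (he : (a : ℚ) + s = b + t) : False := by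
  have h5 : (b : ℚ) < a := by linarith
  have h6 : (a : ℚ) < b + 1 := by linarith
  have h5' : b < a := by exact_mod_cast h5
  have h6' : a < b + 1 := by exact_mod_cast h6
  omega

lemma case2b (h : Hyp side m x y S Z) (hz : ∀ z ∈ Z, ¬ x z < x (m (side z)))
    {κ : J → ℕ} {Y' : J → ℚ} (K : KP side m x y S (Eset side x S Z) κ Y') :
    ∃ X Y, Con side m x y S Z X Y := by
  classical
  have mE : ∀ u, u ∈ Eset side x S Z ↔ u ∈ S ∧ ∀ z ∈ Z, side z = side u → x u < x z :=
    fun u => mem_Eset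
  generalize Eset side x S Z = E at mE K
  have hd : ∀ u ∈ S, ∀ v ∈ Z, u ≠ v := fun u hu v hv e =>
    Finset.disjoint_left.1 h.disj hu (e ▸ hv)
  have hSU : ∀ u ∈ S, u ∈ S ∪ Z := fun u hu => Finset.mem_union_left _ hu
  have hZU : ∀ u ∈ Z, u ∈ S ∪ Z := fun u hu => Finset.mem_union_right _ hu
  have ES : E ⊆ S := fun u hu => ((mE u).1 hu).1
  have hmE : ∀ b, m b ∈ E := by
    intro b
    rw [mE]
    refine ⟨h.mS b, fun z hz1 hs => ?_⟩
    rw [h.ms] at hs
    have h1 := hz z hz1
    rw [hs] at h1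
    rcases (not_lt.1 h1).lt_or_eq with h2 | h2
    · exact h2
    · exact absurd (h.xi _ (hSU _ (h.mS b)) z (hZU z hz1) (by rw [h.ms, hs]) h2)
        (hd _ (h.mS b) z hz1)
  have nE : ∀ u ∈ S, u ∉ E → ∃ z ∈ Z, side z = side u ∧ x z < x u := by
    intro u hu hu1
    by_contra h1
    apply hu1
    rw [mE]
    refine ⟨hu, fun z hz1 hs => ?_⟩
    by_contra h2
    apply h1
    refine ⟨z, hz1, hs, ?_⟩
    rcases (not_lt.1 h2).lt_or_eq with h3 | h3
    · exact h3
    · exact absurd (h.xi u (hSU u hu) z (hZU z hz1) hs.symm h3.symm) (hd u hu z hz1)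
  have ZE : ∀ z ∈ Z, z ∉ E := fun z hz1 h1 => hd z (ES h1) z hz1 rfl
  set F := S.filter (fun u => u ∉ E) with hF
  have mF : ∀ u, u ∈ F ↔ u ∈ S ∧ u ∉ E := fun u => by rw [hF, Finset.mem_filter]
  let lv : J → ℕ := fun u => lev side x F κ (side u) (x u)
  have lvF : ∀ u ∈ S, u ∉ E → lv u = 1 + κ u := by
    intro u hu hu1
    apply le_antisymm
    · apply lev_le
      intro v hv hs hx
      have hv1 := (mF v).1 hv
      by_contra h1
      have h2 : κ u < κ v := by omega
      have h3 := K.p7 u hu hu1 v hv1.1 hv1.2 hs.symm h2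
      linarith
    · exact le_lev ((mF u).2 ⟨hu, hu1⟩) rfl le_rfl
  let X : J → ℚ := fun u => if u ∈ E then sq (-1) 0 (- Y' u) else (lv u : ℚ) + sqs (side u) (x u)
  let Y : J → ℚ := fun u => if u ∈ E then (κ u : ℚ) else (κ u : ℚ) + sq (-(1/2)) (1/2) (y u)
  have XE : ∀ u ∈ E, X u = sq (-1) 0 (- Y' u) := fun u hu => if_pos hu
  have XF : ∀ u, u ∉ E → X u = (lv u : ℚ) + sqs (side u) (x u) := fun u hu => if_neg hu
  have YE : ∀ u ∈ E, Y u = (κ u : ℚ) := fun u hu => if_pos hu
  have YF : ∀ u, u ∉ E → Y u = (κ u : ℚ) + sq (-(1/2)) (1/2) (y u) := fun u hu => if_neg hu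
  have XE0 : ∀ u ∈ E, X u < 0 := by
    intro u hu
    rw [XE u hu]
    exact sq_hi (by norm_num) _
  have XF0 : ∀ u, u ∉ E → (lv u : ℚ) < X u ∧ X u < lv u + 1 := by
    intro u hu
    rw [XF u hu]
    have h1 := sqs_pos (side u) (x u)
    have h2 := sqs_one (side u) (x u)
    exact ⟨by linarith, by linarith⟩
  have XFp : ∀ u, u ∉ E → 0 < X u := by
    intro u hu
    have h1 := (XF0 u hu).1
    have h2 : (0 : ℚ) ≤ (lv u : ℚ) := Nat.cast_nonneg _
    linarith
  have Yb : ∀ u, (κ u : ℚ) - 1/2 < Y u ∧ Y u < κ u + 1/2 := by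
    intro u
    by_cases hu : u ∈ E
    · rw [YE u hu]
      exact ⟨by linarith, by linarith⟩
    · rw [YF u hu]
      have h1 := sq_gt (lo := -(1/2)) (hi := 1/2) (by norm_num) (y u)
      have h2 := sq_hi (lo := -(1/2)) (hi := 1/2) (by norm_num) (y u)
      exact ⟨by linarith, by linarith⟩
  have κle : ∀ u v, Y u ≤ Y v → κ u ≤ κ v := by
    intro u v huv
    have h1 : (κ u : ℚ) < κ v + 1 := by linarith [(Yb u).1, (Yb v).2]
    have h2 : κ u < κ v + 1 := by exact_mod_cast h1
    omega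
  have lvle : ∀ u v, u ∉ E → v ∉ E → X u ≤ X v → lv u ≤ lv v := by
    intro u v hu hv huv
    have h1 : (lv u : ℚ) < lv v + 1 := by linarith [(XF0 u hu).1, (XF0 v hv).2]
    have h2 : lv u < lv v + 1 := by exact_mod_cast h1
    omega
  have PY : Pres side S y Y := by
    apply pres_of_mono h.yi
    intro u hu v hv hs hy
    rcases lt_trichotomy (κ u) (κ v) with h1 | h1 | h1
    · have h2 : (κ u : ℚ) + 1 ≤ κ v := by exact_mod_cast h1
      linarith [(Yb u).2, (Yb v).1]
    · by_cases hu1 : u ∈ E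
      · have := (K.p4 u hu1 v hv h1).2.1 hs
        rw [this] at hy
        exact absurd hy (lt_irrefl _)
      · have hv1 := (K.p5 u hu hu1 v hv h1).1
        rw [YF u hu1, YF v hv1, h1]
        have := (sq_lt (lo := -(1/2)) (hi := 1/2) (by norm_num)).2 hy
        linarith
    · exact absurd (K.p6 v hv u hu hs.symm h1) (not_lt.2 hy.le)
  have PX : Pres side (S ∪ Z) x X := by
    apply pres_of_mono h.xi
    intro u hu v hv hs hx
    by_cases hu1 : u ∈ E <;> by_cases hv1 : v ∈ E
    · rw [XE u hu1, XE v hv1, sq_lt (by norm_num)]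
      exact neg_lt_neg (K.p1 u hu1 v hv1 hs hx)
    · exact (XE0 u hu1).trans (XFp v hv1)
    · exfalso
      rcases Finset.mem_union.1 hu with h1 | h1
      · obtain ⟨z, hz1, sz, xz⟩ := nE u h1 hu1
        have := ((mE v).1 hv1).2 z hz1 (sz.trans hs)
        linarith
      · have := ((mE v).1 hv1).2 u h1 hs
        linarith
    · have h1 : lv u ≤ lv v := by
        show lev side x F κ (side u) (x u) ≤ lev side x F κ (side v) (x v)
        rw [hs]
        exact lev_mono hx.le
      have h2 : (lv u : ℚ) ≤ lv v := by exact_mod_cast h1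
      have h3 := (sqs_lt (b := side v)).2 hx
      rw [XF u hu1, XF v hv1, hs]
      linarith
  -- the block argument
  have blk : ∀ i ∈ S, ∀ p ∈ S, ∀ q ∈ S, p ∉ E → X p < X q → Y q < Y i → Y i < Y p →
      q ∉ E ∧ i ∉ E ∧ side q = side p ∧ side i = side p ∧ κ q = κ p ∧ κ i = κ p := by
    intro i hi p hp q hq hp1 h1 h2 h3
    have hq1 : q ∉ E := by
      intro h4
      linarith [XE0 q h4, XFp p hp1]
    have h4 := lvle p q hp1 hq1 h1.le
    rw [lvF p hp hp1, lvF q hq hq1] at h4
    have h5 := κle q i h2.le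
    have h6 := κle i p h3.le
    have e1 : κ p = κ q := by omega
    have e2 : κ p = κ i := by omega
    have f1 := K.p5 p hp hp1 q hq e1
    have f2 := K.p5 p hp hp1 i hi e2
    exact ⟨hq1, f2.1, f1.2.symm, f2.2.symm, e1.symm, e2.symm⟩
  refine ⟨X, Y, ?_⟩
  refine
    { px := PX
      py := PY
      mx := ?_
      my := ?_
      cx := ?_
      cy := ?_
      av := ?_
      cut := ?_ }
  · rw [XE _ (hmE _), XE _ (hmE _), K.p2]
  · rw [YE _ (hmE _), YE _ (hmE _), K.p2']
  · intro u hu v hv hs he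
    by_cases hu1 : u ∈ E <;> by_cases hv1 : v ∈ E
    · rw [XE u hu1, XE v hv1] at he
      exact K.p3 u hu1 v hv1 hs (neg_inj.1 (sq_inj (by norm_num) he))
    · linarith [XE0 u hu1, XFp v hv1]
    · linarith [XE0 v hv1, XFp u hu1]
    · exfalso
      rw [XF u hu1, XF v hv1] at he
      cases h1 : side u <;> cases h2 : side v
      · exact hs (h1.trans h2.symm)
      · rw [h1, h2] at he
        exact frac_ne (sq_gt (by norm_num) _) (sq_hi (by norm_num) _) (sq_gt (by norm_num) _)
          (sq_hi (by norm_num) _) he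
      · rw [h1, h2] at he
        exact frac_ne (sq_gt (by norm_num) _) (sq_hi (by norm_num) _) (sq_gt (by norm_num) _)
          (sq_hi (by norm_num) _) he.symm
      · exact hs (h1.trans h2.symm)
  · intro u hu v hv hs he
    have h1 := κle u v he.le
    have h2 := κle v u he.ge
    have h3 : κ u = κ v := le_antisymm h1 h2
    by_cases hu1 : u ∈ E
    · exact (K.p4 u hu1 v hv h3).2.2 hs
    · exact absurd (K.p5 u hu hu1 v hv h3).2 hs
  · intro i hi j hj p hp q hq _ _ _ hpat
    obtain ⟨g1, g2, g3, g4, g5, g6⟩ := hpat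
    by_cases hp1 : p ∈ E
    · have hj1 : j ∈ E := by
        by_contra h1
        linarith [XFp j h1, XE0 p hp1]
      have hi1 : i ∈ E := by
        by_contra h1
        linarith [XFp i h1, XE0 p hp1]
      have k1 : Y' j < Y' i := by
        rw [XE i hi1, XE j hj1, sq_lt (by norm_num)] at g1
        linarith
      have k2 : Y' p < Y' j := by
        rw [XE j hj1, XE p hp1, sq_lt (by norm_num)] at g2
        linarith
      have k3 : κ i < κ p := by
        rw [YE i hi1, YE p hp1] at g6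
        exact_mod_cast g6
      have k4 : κ j < κ q := by
        rcases (κle j q g4.le).lt_or_eq with h1 | h1
        · exact h1
        · exfalso
          have h2 := (K.p4 j hj1 q hq h1).1
          rw [YE j hj1, YE q h2, h1] at g4
          exact lt_irrefl _ g4
      have k5 : κ q < κ i := by
        rcases (κle q i g5.le).lt_or_eq with h1 | h1
        · exact h1
        · exfalso
          have h2 := (K.p4 i hi1 q hq h1.symm).1
          rw [YE i hi1, YE q h2, h1] at g5
          exact lt_irrefl _ g5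
      by_cases hq1 : q ∈ E
      · have k6 : Y' q < Y' p := by
          rw [XE p hp1, XE q hq1, sq_lt (by norm_num)] at g3
          linarith
        exact K.p8 i hi1 j hj1 p hp1 q hq1 ⟨k4, k5, k3, k6, k2, k1⟩
      · exact K.p9 i hi1 j hj1 p hp1 q hq hq1 ⟨k4, k5, k3, k2, k1⟩
    · obtain ⟨hq1, hi1, sq', si, eq, ei⟩ := blk i hi p hp q hq hp1 g3 g5 g6
      have hj1 : j ∉ E := by
        intro h1
        linarith [XE0 j h1, XFp i hi1]
      have l1 := lvle i j hi1 hj1 g1.le
      have l2 := lvle j p hj1 hp1 g2.le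
      rw [lvF i hi hi1, lvF j hj hj1] at l1
      rw [lvF j hj hj1, lvF p hp hp1] at l2
      have ej : κ p = κ j := by omega
      have sj := (K.p5 p hp hp1 j hj ej).2
      exact h.av i hi j hj p hp q hq (by show side _ = side _; rw [si, sj])
        (by show side _ = side _; rw [si]) (by show side _ = side _; rw [si, sq'])
        ⟨(PX i (hSU i hi) j (hSU j hj) (by rw [si, sj])).2 g1,
          (PX j (hSU j hj) p (hSU p hp) (by rw [sj])).2 g2,
          (PX p (hSU p hp) q (hSU q hq) (by rw [sq'])).2 g3,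
          (PY j hj q hq (by rw [sq', sj])).2 g4,
          (PY q hq i hi (by rw [sq', si])).2 g5,
          (PY i hi p hp (by rw [si])).2 g6⟩
  · intro w hw i hi p hp q hq _ _ _ hc
    obtain ⟨g1, g2, g3, g4, g5⟩ := hc
    have hw1 := ZE w hw
    have hp1 : p ∉ E := by
      intro h1
      linarith [XFp w hw1, XE0 p h1]
    obtain ⟨hq1, hi1, sq', si, eq, ei⟩ := blk i hi p hp q hq hp1 g3 g4 g5
    have l1 := lvle i w hi1 hw1 g1.le
    have l2 := lvle w p hw1 hp1 g2.le
    rw [lvF i hi hi1] at l1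
    rw [lvF p hp hp1] at l2
    have l3 : lv w = 1 + κ p := by omega
    obtain ⟨v, hv, sv, _, ev⟩ := lev_pos (side := side) (x := x) (F := F) (κ := κ)
      (b := side w) (t := x w) (by show 0 < lv w; omega)
    have ev' : lv w = 1 + κ v := ev
    have hv1 := (mF v).1 hv
    have sp := (K.p5 p hp hp1 v hv1.1 (by omega)).2
    have sw : side w = side p := by rw [sp, sv]
    exact h.cut w hw i hi p hp q hq (by show side _ = side _; rw [sw, si])
      (by show side _ = side _; rw [sw]) (by show side _ = side _; rw [sw, sq'])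
      ⟨(PX i (hSU i hi) w (hZU w hw) (by rw [si, sw])).2 g1,
        (PX w (hZU w hw) p (hSU p hp) sw).2 g2,
        (PX p (hSU p hp) q (hSU q hq) (by rw [sq'])).2 g3,
        (PY q hq i hi (by rw [sq', si])).2 g4,
        (PY i hi p hp (by rw [si])).2 g5⟩

theorem main (side : J → Bool) (m : Bool → J) : ∀ (n : ℕ) (x y : J → ℚ) (S Z : Finset J),
    S.card + Z.card < n → Hyp side m x y S Z → ∃ X Y, Con side m x y S Z X Y := by
  intro n
  induction n with
  | zero => intro _ _ _ _ h; omega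
  | succ n ih =>
    intro x y S Z hn h
    by_cases h1 : ∃ z ∈ Z, x z < x (m (side z))
    · obtain ⟨z, hz, hzm⟩ := h1
      exact case1 h hz hzm (fun S1 Z1 hc h2 => ih x y S1 Z1 (by omega) h2)
    · have h2 : ∀ z ∈ Z, ¬ x z < x (m (side z)) := fun z hz h3 => h1 ⟨z, hz, h3⟩
      rcases Z.eq_empty_or_nonempty with rfl | hZ
      · exact case0 h
      · obtain ⟨κ, Y', K⟩ := case2a h hZ h2
          (fun x y S1 Z1 hc h2 => ih x y S1 Z1 (by omega) h2)
        exact case2b h h2 K

end Pool.Agent.U830.AM.P1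

namespace Pool.Agent.U830.AM.P1
open Pool.Agent.U591.AM

theorem t_P1 : S_P1 := by
  intro J _ side x y S Z m h1 h2 h3 h4 h5 h6 h7
  obtain ⟨X, Y, C⟩ := main side m _ x y S Z (Nat.lt_succ_self _) ⟨h1, h2, h3, h4, h5, h6, h7⟩
  exact ⟨X, Y, C.px, C.py, C.mx, C.my, C.cx, C.cy, C.av, C.cut⟩

end Pool.Agent.U830.AM.P1
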